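import Pool.Agent.TH464.PO.Two
import Pool.Agent.TH464.PO.QuadAP

set_option autoImplicit false

/-!
# `m ^ 2 - 2`: the density in all windows around almost all of the good integers

Let `m` be good if `m ^ 2 - 2` has at most `2 r` prime factors, all larger than `X ^ (1 / r)`. Let
`V` be the product of `1 - ρ(p) / p` over the primes `p ≤ X ^ (1 / r)`. Given `θ > 0` and `ε > 0`
there are `K` and `r0` such that for every `r ≥ r0` and all large `X`, in EVERY interval `(X, X +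
Y]` with `X ^ θ ≤ Y ≤ X`, for all but at most `ε Y V` of its good integers `m` (there are about `Y
V` of them) ALL windows `(u, v]` around `m` inside `(X, X + Y]` of length at least `K / V` contain
`(1 ± ε) (v - u) V` good integers.
-/

namespace Pool.Agent.Results.MP_0b748d_nt.ExactNeighbours

open Finset Filter

/-- `N` has at most `B` prime factors (with multiplicity), all of them larger than `z`. -/
def AlmostPrime (B : ℕ) (z : ℝ) (N : ℕ) : Prop :=
  N.primeFactorsList.length ≤ B ∧ ∀ p : ℕ, p.Prime → p ∣ N → z < (p : ℝ)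

/-- `m` is good: `m ^ 2 - 2` has at most `2 r` prime factors, all larger than `X ^ (1 / r)`. -/
def Good (r X m : ℕ) : Prop :=
  AlmostPrime (2 * r) ((X : ℝ) ^ (1 / (r : ℝ))) ((m : ℤ) ^ 2 - 2).natAbs

open Classical in
/-- The sieve density: the product of `1 - ρ(p) / p` over the primes `p ≤ X ^ (1 / r)`, where `ρ(p)` is
the number of the `a` mod `p` with `p ∣ a ^ 2 - 2`. -/
noncomputable def V (r X : ℕ) : ℝ :=
  ∏ p ∈ (Finset.range (⌊(X : ℝ) ^ (1 / (r : ℝ))⌋₊ + 1)).filter Nat.Prime,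
    (1 - (((Finset.range p).filter (fun a : ℕ => (p : ℤ) ∣ (a : ℤ) ^ 2 - 2)).card : ℝ) / p)

open Classical in
/-- The number of the good `k` in `(u, v]`. -/
noncomputable def N (r X u v : ℕ) : ℕ :=
  ((Finset.Ioc u v).filter (fun k => Good r X k)).card

/-- All windows around `n` inside `(X, X + Y]` of length at least `K / V` have the density `V` up to
`ε`. -/
def AllWindows (r : ℕ) (K ε : ℝ) (X Y n : ℕ) : Prop :=
  ∀ u v : ℕ, X ≤ u → u < n → n ≤ v → v ≤ X + Y → K ≤ ((v : ℝ) - u) * V r X →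
    |(N r X u v : ℝ) - (v - u) * V r X| ≤ ε * ((v - u) * V r X)

open Pool.Agent.TH464.PO Pool.Agent.TH464.PW Pool.Agent.W123.RU Pool.Agent.W123.RU.Poly
open Pool.Agent.H373R2.T7 Pool.Agent.W123.RP

lemma good_iff (r : ℕ) (hr : 1 ≤ r) : ∀ᶠ X : ℕ in atTop, ∀ m : ℕ, m ≤ 3 * X →
    (Sf (Q (qs 1 0 (-2))) ⌊(X : ℝ) ^ (1 / (r : ℝ))⌋₊ m ↔ Good r X m) := by
  filter_upwards [sf_one (quad 1 0 (-2)) 2 (quad_deg 1 0 (-2) one_ne_zero).le r hr] with X hX m hm
  have e : ((quad 1 0 (-2)).eval (m : ℤ)).natAbs = ((m : ℤ) ^ 2 - 2).natAbs := by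
    rw [quad_eval]
    congr 1
    ring
  have h := hX m hm
  rw [e] at h
  exact h

lemma V_eq (r X : ℕ) : Vq (Q (qs 1 0 (-2))) ⌊(X : ℝ) ^ (1 / (r : ℝ))⌋₊ = V r X :=
  V_gen (qs 1 0 (-2)) (fun p a => (p : ℤ) ∣ (a : ℤ) ^ 2 - 2) (fun p m => by
    have e : (1 : ℤ) * (m : ℤ) ^ 2 + 0 * m + (-2) = (m : ℤ) ^ 2 - 2 := by ring
    rw [qs_Q, e]) _

open Classical in
/-- **The density in all windows around almost all of the good integers.** -/
theorem result (θ : ℝ) (hθ : 0 < θ) (ε : ℝ) (hε : 0 < ε) :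
    ∃ (K : ℝ) (r0 : ℕ), 0 < K ∧ ∀ r : ℕ, r0 ≤ r → ∀ᶠ X : ℕ in atTop, ∀ Y : ℕ, (X : ℝ) ^ θ ≤ Y → Y ≤ X →
      (((Finset.Ioc X (X + Y)).filter
        (fun m => Good r X m ∧ ¬ AllWindows r K ε X Y m)).card : ℝ) ≤ ε * (Y * V r X) := by
  obtain ⟨K, r0, hK, h⟩ := pack_exact (qs 1 0 (-2)) Good V (qs_sys 1 0 (-2) one_pos (fun p hp h => not_dvd_one p hp h.1) (by decide) nsq8) (qs_noTr 1 0 (-2) one_pos) good_iff
    V_eq θ hθ ε hε
  refine ⟨K, r0, hK, fun r hr => ?_⟩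
  filter_upwards [h r hr] with X hX Y h1 h2
  exact (hX Y h1 h2).2

end Pool.Agent.Results.MP_0b748d_nt.ExactNeighbours
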