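import Pool.Agent.TH464.PO.Two
import Pool.Agent.TH464.PO.QuadAP

set_option autoImplicit false

/-!
# The Poisson law for the almost prime values of `m ^ 2 - 2`

Let `m` be good if `m ^ 2 - 2` has at most `2 r` prime factors, all larger than `X ^ (1 / r)`. Let
`V` be the product of `1 - ρ(p) / p` over the primes `p ≤ X ^ (1 / r)`. Given `θ > 0`, a size `x`
and an accuracy `ε`, for all `r ≥ r0 (θ, x, ε)`, all large `X`, ALL `Y` with `X ^ θ ≤ Y ≤ X` and
ALL window lengths `T` with `T V ≤ x` the number of the good `m` in `(n, n + T]`, for `n` in `(X,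
X + Y]`, has the Poisson distribution of mean `T V`, up to `ε` in total variation.
-/

namespace Pool.Agent.Results.MP_0b748d_nt.PoissonLaw

open Finset Filter

/-- `N` has at most `B` prime factors (with multiplicity), all of them larger than `z`. -/
def AlmostPrime (B : ℕ) (z : ℝ) (N : ℕ) : Prop :=
  N.primeFactorsList.length ≤ B ∧ ∀ p : ℕ, p.Prime → p ∣ N → z < (p : ℝ)

/-- `m` is good: `m ^ 2 - 2` has at most `2 r` prime factors, all larger than `X ^ (1 / r)`. -/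
def Good (r X m : ℕ) : Prop :=
  AlmostPrime (2 * r) ((X : ℝ) ^ (1 / (r : ℝ))) ((m : ℤ) ^ 2 - 2).natAbs

open Classical in
/-- The sieve density: the product of `1 - ρ(p) / p` over the primes `p ≤ X ^ (1 / r)`, where `ρ(p)` is
the number of the `a` mod `p` with `p ∣ a ^ 2 - 2`. -/
noncomputable def V (r X : ℕ) : ℝ :=
  ∏ p ∈ (Finset.range (⌊(X : ℝ) ^ (1 / (r : ℝ))⌋₊ + 1)).filter Nat.Prime,
    (1 - (((Finset.range p).filter (fun a : ℕ => (p : ℤ) ∣ (a : ℤ) ^ 2 - 2)).card : ℝ) / p)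

open Classical in
/-- The number of the good `m` in `(n, n + T]`. -/
noncomputable def N (r X T n : ℕ) : ℕ :=
  ((Finset.Ioc n (n + T)).filter (fun m => Good r X m)).card

/-- The probability of `A` for the Poisson distribution of mean `x`. -/
noncomputable def Poi (x : ℝ) (A : Finset ℕ) : ℝ :=
  ∑ j ∈ A, Real.exp (-x) * x ^ j / j.factorial

open Pool.Agent.TH464.PO Pool.Agent.TH464.PW Pool.Agent.W123.RU Pool.Agent.W123.RU.Poly
open Pool.Agent.H373R2.T7 Pool.Agent.W123.RP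

lemma good_iff (r : ℕ) (hr : 1 ≤ r) : ∀ᶠ X : ℕ in atTop, ∀ m : ℕ, m ≤ 3 * X →
    (Sf (Q (qs 1 0 (-2))) ⌊(X : ℝ) ^ (1 / (r : ℝ))⌋₊ m ↔ Good r X m) := by
  filter_upwards [sf_one (quad 1 0 (-2)) 2 (quad_deg 1 0 (-2) one_ne_zero).le r hr] with X hX m hm
  have e : ((quad 1 0 (-2)).eval (m : ℤ)).natAbs = ((m : ℤ) ^ 2 - 2).natAbs := by
    rw [quad_eval]
    congr 1
    ring
  have h := hX m hm
  rw [e] at h
  exact h

lemma V_eq (r X : ℕ) : Vq (Q (qs 1 0 (-2))) ⌊(X : ℝ) ^ (1 / (r : ℝ))⌋₊ = V r X :=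
  V_gen (qs 1 0 (-2)) (fun p a => (p : ℤ) ∣ (a : ℤ) ^ 2 - 2) (fun p m => by
    have e : (1 : ℤ) * (m : ℤ) ^ 2 + 0 * m + (-2) = (m : ℤ) ^ 2 - 2 := by ring
    rw [qs_Q, e]) _

open Classical in
/-- **The Poisson law, in every short interval.** -/
theorem result (θ : ℝ) (hθ : 0 < θ) (x ε : ℝ) (hε : 0 < ε) :
    ∃ r0 : ℕ, ∀ r : ℕ, r0 ≤ r → ∀ᶠ X : ℕ in atTop, ∀ Y : ℕ, (X : ℝ) ^ θ ≤ Y → Y ≤ X →
      ∀ T : ℕ, T * V r X ≤ x → ∀ A : Finset ℕ,
        |(((Finset.Ioc X (X + Y)).filter (fun n => N r X T n ∈ A)).card : ℝ) -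
          Y * Poi (T * V r X) A| ≤ ε * Y :=
  pack_poisson (qs 1 0 (-2)) Good V (qs_sys 1 0 (-2) one_pos (fun p hp h => not_dvd_one p hp h.1) (by decide) nsq8) (qs_noTr 1 0 (-2) one_pos) good_iff
    V_eq θ hθ x ε hε

end Pool.Agent.Results.MP_0b748d_nt.PoissonLaw
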