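import Pool.Agent.TH977.PW.Inst

set_option autoImplicit false

/-!
# Values of `n ^ 2 - 2` at primes

Let `R r` be the set of the `n` for which all prime factors of `n` and of `n ^ 2 - 2` are larger
than `n ^ (1 / r)`; it contains all primes `n` with `n ^ 2 - 2` prime. The interval `(X, 2X]`
contains at least `κ X / log ^ 2 X` PRIMES `n` in `R r` for which `n ^ 2 - 2` has at most `r` prime
factors. Let `A` be an ARBITRARY subset of `R r` (the set of these primes, or the set of the primes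
`n` with `n ^ 2 - 2` prime). In every short interval `(X, X + Y]`, `X ^ θ ≤ Y ≤ X / 2`, all but
`ε Y / log ^ 2 X` of the elements of `A` are regular points of `A`.
-/

namespace Pool.Agent.Results.MP_0b748d_nt.PrimeArguments

open Finset Filter
open Pool.Agent.TH977.PW (N Irregular)

/-- All prime factors of `n` and of `n ^ 2 - 2` are larger than `n ^ (1 / r)`. -/
def R (r : ℕ) : Set ℕ :=
  {n | ∀ q : ℕ, q.Prime → (q : ℤ) ∣ (n : ℤ) * ((n : ℤ) ^ 2 - 2) →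
    (n : ℝ) ^ (1 / (r : ℝ)) < (q : ℝ)}

lemma int_eq (m : ℕ) : (1 : ℤ) * (m : ℤ) ^ 2 + 0 * m + (-2) = (m : ℤ) ^ 2 - 2 := by
  ring

/-- **Regular neighbours, `n ^ 2 - 2` at primes.** -/
theorem result (θ : ℝ) (hθ : 0 < θ) (hθ1 : θ ≤ 1) :
    ∃ r₀ : ℕ, 2 ≤ r₀ ∧ ∀ r : ℕ, r₀ ≤ r →
      (∀ p : ℕ, p.Prime → ((p : ℤ) ^ 2 - 2).natAbs.Prime → p ∈ R r) ∧
      (∃ κ : ℝ, 0 < κ ∧ ∀ᶠ X : ℕ in atTop, κ * X / Real.log X ^ 2 ≤
        N {p | p.Prime ∧ p ∈ R r ∧ ((p : ℤ) ^ 2 - 2).natAbs.primeFactorsList.length ≤ r}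
          X (2 * X)) ∧
      ∀ ε : ℝ, 0 < ε → ∃ c : ℝ, 0 < c ∧ ∀ δ : ℝ, 0 < δ → ∃ B : ℕ,
        ∀ᶠ X : ℕ in atTop, ∀ Y : ℕ, (X : ℝ) ^ θ ≤ Y → 2 * Y ≤ X → ∀ A : Set ℕ, A ⊆ R r →
          (N (Irregular A 2 c δ B X Y) X (X + Y) : ℝ) ≤ ε * Y / Real.log X ^ 2 := by
  obtain ⟨r0, hr0, h⟩ := Pool.Agent.TH977.PW.final_quad_prime 1 0 (-2) one_pos
    (fun p hp h => by
      have h1 : p ∣ 1 := by exact_mod_cast h.1
      exact hp.one_lt.ne' (Nat.dvd_one.1 h1))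
    (fun h => by
      obtain ⟨x, hx⟩ := h
      have h1 : x * x = 8 := by linarith
      have h2 : x ≤ 2 := by nlinarith
      have h3 : -2 ≤ x := by nlinarith
      nlinarith)
    (fun p hp => ⟨1, fun h1 => hp.one_lt.ne' (Nat.dvd_one.1 h1), fun h1 => by
      have h2 : (p : ℤ) ∣ 1 := by
        have e : (1 : ℤ) * ((1 : ℕ) : ℤ) ^ 2 + 0 * ((1 : ℕ) : ℤ) + (-2) = -1 := by norm_num
        rw [e] at h1
        exact (dvd_neg.1 h1)
      have h3 : p ∣ 1 := by exact_mod_cast h2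
      exact hp.one_lt.ne' (Nat.dvd_one.1 h3)⟩)
    (fun r => R r)
    (fun r => {p | p.Prime ∧ p ∈ R r ∧ ((p : ℤ) ^ 2 - 2).natAbs.primeFactorsList.length ≤ r})
    (fun r m _ hm => ⟨fun p hp hd => hm p hp ((Int.natCast_dvd_natCast.2 hd).mul_right _),
      fun p hp hd => hm p hp (by
        rw [int_eq] at hd
        exact hd.mul_left _)⟩)
    (fun r m hr hm h1 h2 => by
      refine ⟨hm, ?_, ?_⟩
      · intro q hq hd
        rcases (Nat.prime_iff_prime_int.1 hq).dvd_or_dvd hd with h3 | h3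
        · exact Pool.Agent.TH977.PW.rpow_lt_dvd r m q hr hm hq (Int.natCast_dvd_natCast.1 h3)
        · refine h1 q hq ?_
          rw [int_eq]
          exact h3
      · rw [int_eq] at h2
        exact h2) θ hθ hθ1
  refine ⟨r0, hr0, fun r hr => ⟨?_, (h r hr).1, (h r hr).2⟩⟩
  intro p hp hp2 q hq hd
  rcases (Nat.prime_iff_prime_int.1 hq).dvd_or_dvd hd with h3 | h3
  · exact Pool.Agent.TH977.PW.rpow_lt_dvd r p q (hr0.trans hr) hp hq (Int.natCast_dvd_natCast.1 h3)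
  · rw [(Nat.prime_dvd_prime_iff_eq hq hp2).1 (Int.natCast_dvd.1 h3)]
    apply Pool.Agent.TH977.PW.rpow_lt_of_le r p _ (hr0.trans hr) hp.two_le
    have h4 : (2 : ℤ) ≤ p := by exact_mod_cast hp.two_le
    have h5 : (p : ℤ) ≤ (p : ℤ) ^ 2 - 2 := by nlinarith
    have h6 := h5.trans Int.le_natAbs
    exact_mod_cast h6

end Pool.Agent.Results.MP_0b748d_nt.PrimeArguments
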