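import Pool.Agent.TH882.T4

/-!
Primes `n ^ 2 + k` at isolated primes `n` which start a prime tuple: for all but a proportion `κ` of
the data `(a_0, ..., a_s, k_1, ..., k_r)` without local obstruction, `n`, all `n + a_i` and all
`n ^ 2 + k_j` are prime for at least `c x / (log x) ^ (s + r + 2)` numbers `n ≤ x` without other
primes at distance at most `L log x`.
-/

set_option autoImplicit false

open Finset Filter Topology Polynomial

namespace Pool.Agent.Results.MP_0b748d_nt.SquaresOfTupleMembers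

/-- The only prime at distance at most `R` from `p` is `p` itself (if it is one). -/
def Isolated (R : ℝ) (p : ℕ) : Prop := ∀ q : ℕ, q.Prime → |(q : ℝ) - p| ≤ R → q = p

/-- For every prime `l` there is an integer `n` such that `l` divides none of the numbers `n`,
`n + a_i`, `n ^ 2 + k_j`. -/
def Admissible {s r : ℕ} (a : Fin s → ℕ) (k : Fin r → ℕ) : Prop :=
  ∀ l : ℕ, l.Prime → ∃ n : ℤ, ¬ (l : ℤ) ∣ n ∧ (∀ i, ¬ (l : ℤ) ∣ n + a i) ∧
    ∀ j, ¬ (l : ℤ) ∣ n ^ 2 + k j

open Classical in
/-- The primes `n ≤ x` without other primes at distance at most `L * log x` such that all `n + a_i`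
and all `n ^ 2 + k_j` are prime. -/
noncomputable def arguments {s r : ℕ} (L : ℝ) (a : Fin s → ℕ) (k : Fin r → ℕ) (x : ℕ) : Finset ℕ :=
  (Icc 1 x).filter (fun n => n.Prime ∧ Isolated (L * Real.log x) n ∧ (∀ i, (n + a i).Prime) ∧
    ∀ j, (n ^ 2 + k j).Prime)

open Classical in
/-- The admissible data `1 ≤ a_i ≤ K x` (`s + 1` numbers), `1 ≤ k_j ≤ K x ^ 2` (`r` numbers) with few
arguments. -/
noncomputable def exceptions (s r : ℕ) (L c : ℝ) (K x : ℕ) :
    Finset ((Fin (s + 1) → ℕ) × (Fin r → ℕ)) :=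
  (Fintype.piFinset (fun _ : Fin (s + 1) => Icc 1 (K * x)) ×ˢ
    Fintype.piFinset (fun _ : Fin r => Icc 1 (K * x ^ 2))).filter (fun d =>
    Admissible d.1 d.2 ∧
    ((arguments L d.1 d.2 x).card : ℝ) < c * (x / Real.log x ^ (s + r + 2)))

theorem result (s r : ℕ) (L : ℝ) (K : ℕ) (κ : ℝ) (hκ : 0 < κ) :
    (∃ c : ℝ, 0 < c ∧ ∃ x₀ : ℕ, ∀ x : ℕ, x₀ ≤ x →
      ((exceptions s r L c K x).card : ℝ) ≤ κ * ((x : ℝ) ^ (s + 1) * ((x : ℝ) ^ 2) ^ r)) ∧
    ∀ a k : ℕ, 6 ∣ a → (Admissible (fun _ : Fin 1 => a) (fun _ : Fin 1 => k) ↔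
      Even k ∧ k % 3 ≠ 2) := by
  classical
  constructor
  · set g : Fin (s + 1 + r) → ℤ[X] :=
      Fin.append (fun _ : Fin (s + 1) => X) (fun _ : Fin r => X ^ 2) with hgd
    have g1 : ∀ i : Fin (s + 1), g (Fin.castAdd r i) = X := fun i => by
      rw [hgd]
      simp only [Fin.append_left]
    have g2 : ∀ j : Fin r, g (Fin.natAdd (s + 1) j) = X ^ 2 := fun j => by
      rw [hgd]
      simp only [Fin.append_right]
    obtain ⟨c, hc, x₀, h⟩ := Pool.Agent.TH882.TS.iso_mainM (fun _ => 1) (fun _ => Or.inl rfl) g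
      (fun j => by
        refine Fin.addCases (fun i => ?_) (fun i => ?_) j
        · rw [g1, natDegree_X]
        · rw [g2, natDegree_X_pow]
          norm_num)
      (fun j => by
        refine Fin.addCases (fun i => ?_) (fun i => ?_) j
        · rw [g1, leadingCoeff_X]
          norm_num
        · rw [g2, leadingCoeff_X_pow]
          norm_num) L K κ hκ
    refine ⟨c, hc, x₀, fun x hx => ?_⟩
    have h1 := h x hx
    have e0 : ∏ j : Fin (s + 1 + r), (x : ℝ) ^ (g j).natDegree =
        (x : ℝ) ^ (s + 1) * ((x : ℝ) ^ 2) ^ r := by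
      rw [Fin.prod_univ_add]
      simp only [g1, g2, natDegree_X_pow, natDegree_X, pow_one, prod_const, card_univ,
        Fintype.card_fin]
    rw [e0] at h1
    set f : (Fin (s + 1) → ℕ) × (Fin r → ℕ) → (Fin (s + 1 + r) → ℕ) :=
      fun d => Fin.append d.1 d.2 with hf
    have f1 : ∀ d, ∀ i : Fin (s + 1), f d (Fin.castAdd r i) = d.1 i := fun d i => by
      rw [hf]
      simp only [Fin.append_left]
    have f2 : ∀ d, ∀ i : Fin r, f d (Fin.natAdd (s + 1) i) = d.2 i := fun d i => by
      rw [hf]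
      simp only [Fin.append_right]
    refine le_trans (Pool.Agent.TH882.TS.tr_excM _ _ g c K x _ f ?_
      (fun d => arguments L d.1 d.2 x) ?_ ?_ ?_ ?_) h1
    · rintro ⟨N, a⟩ _ ⟨N', a'⟩ _ he
      have e1 : N = N' := by
        funext i
        have := congrFun he (Fin.castAdd r i)
        rwa [f1, f1] at this
      have e2 : a = a' := by
        funext i
        have := congrFun he (Fin.natAdd (s + 1) i)
        rwa [f2, f2] at this
      rw [e1, e2]
    · intro d hd j
      unfold exceptions at hd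
      rw [mem_filter, mem_product, Fintype.mem_piFinset, Fintype.mem_piFinset] at hd
      obtain ⟨⟨k1, k2⟩, -⟩ := hd
      refine Fin.addCases (fun i => ?_) (fun i => ?_) j
      · rw [f1, g1, natDegree_X, pow_one]
        exact k1 i
      · rw [f2, g2, natDegree_X_pow]
        exact k2 i
    · intro d hd l hlp
      unfold exceptions at hd
      rw [mem_filter] at hd
      obtain ⟨n, n1, n2, n3⟩ := hd.2.1 l hlp
      refine ⟨n, n1, fun j => ?_⟩
      refine Fin.addCases (fun i => ?_) (fun i => ?_) j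
      · rw [f1, g1, eval_X, one_mul, add_comm]
        exact n2 i
      · rw [f2, g2, eval_pow, eval_X, one_mul, add_comm]
        exact n3 i
    · intro d hd
      unfold exceptions at hd
      rw [mem_filter] at hd
      have e1 : s + 1 + r + 1 = s + r + 2 := by omega
      rw [e1]
      exact hd.2.2
    · intro d hd n hn1 hn2 hn3 hn4
      unfold arguments
      rw [mem_filter]
      refine ⟨hn1, hn2, hn3, fun i => ?_, fun i => ?_⟩
      · have w1 := hn4 (Fin.castAdd r i)
        rw [f1, g1, eval_X] at w1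
        have e1 : ((d.1 i : ℤ) + 1 * (n : ℤ)).toNat = n + d.1 i := by omega
        rwa [e1] at w1
      · have w2 := hn4 (Fin.natAdd (s + 1) i)
        rw [f2, g2, eval_pow, eval_X] at w2
        have e3 : (d.2 i : ℤ) + 1 * (n : ℤ) ^ 2 = ((n ^ 2 + d.2 i : ℕ) : ℤ) := by push_cast; ring
        rwa [e3, Int.toNat_natCast] at w2
  · intro a k ha
    constructor
    · intro h
      obtain ⟨n, n1, -, n3⟩ := h 2 Nat.prime_two
      obtain ⟨b, b1, -, b3⟩ := h 3 Nat.prime_three
      have a4 := n3 0
      have b4 := b3 0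
      push_cast at n1 a4 b1 b4
      rw [Nat.even_iff]
      obtain ⟨u, hu⟩ : ∃ u : ℤ, n = 2 * u + 1 := ⟨n / 2, by omega⟩
      have e1 : n ^ 2 + (k : ℤ) = 2 * (2 * u ^ 2 + 2 * u) + 1 + k := by rw [hu]; ring
      rw [e1] at a4
      refine ⟨by omega, ?_⟩
      intro hk
      apply b4
      obtain ⟨w, hw⟩ : ∃ w : ℤ, (k : ℤ) = 3 * w + 2 := ⟨k / 3, by omega⟩
      have hb : b % 3 = 1 ∨ b % 3 = 2 := by omega
      rcases hb with hb | hb
      · obtain ⟨v, hv⟩ : ∃ v : ℤ, b = 3 * v + 1 := ⟨b / 3, by omega⟩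
        exact ⟨3 * v ^ 2 + 2 * v + 1 + w, by rw [hv, hw]; ring⟩
      · obtain ⟨v, hv⟩ : ∃ v : ℤ, b = 3 * v + 2 := ⟨b / 3, by omega⟩
        exact ⟨3 * v ^ 2 + 4 * v + 2 + w, by rw [hv, hw]; ring⟩
    · rintro ⟨hk, hk3⟩ l hlp
      rw [Nat.even_iff] at hk
      rcases Nat.lt_or_ge l 5 with h6 | h6
      · have hl2 := hlp.two_le
        have hl4 : l ≠ 4 := by
          rintro rfl
          exact absurd hlp (by norm_num)
        have h7 : l = 2 ∨ l = 3 := by omega
        rcases h7 with rfl | rfl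
        · refine ⟨1, by norm_num, fun _ => ?_, fun _ => ?_⟩ <;> push_cast <;> omega
        · refine ⟨1, by norm_num, fun _ => ?_, fun _ => ?_⟩ <;> push_cast <;> omega
      · obtain ⟨n, n1, n2⟩ := Pool.Agent.TH882.TS.wit (fun _ : Fin 2 => (1 : ℤ))
          (fun _ => Or.inl rfl) (![X, X ^ 2] : Fin 2 → ℤ[X]) (by
            intro j
            fin_cases j
            · show 1 ≤ (X : ℤ[X]).natDegree
              rw [natDegree_X]
            · show 1 ≤ (X ^ 2 : ℤ[X]).natDegree
              rw [natDegree_X_pow]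
              norm_num) l hlp
          (by
            intro j hd
            have h9 : (l : ℤ) ∣ 1 := by
              fin_cases j
              · have : (l : ℤ) ∣ (X : ℤ[X]).leadingCoeff := hd
                rwa [leadingCoeff_X] at this
              · have : (l : ℤ) ∣ (X ^ 2 : ℤ[X]).leadingCoeff := hd
                rwa [leadingCoeff_X_pow] at this
            have := Int.le_of_dvd one_pos h9
            omega) (by
            rw [Fin.sum_univ_two]
            show 1 + ((X : ℤ[X]).natDegree + (X ^ 2 : ℤ[X]).natDegree) < l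
            rw [natDegree_X, natDegree_X_pow]
            omega) ![a, k]
        refine ⟨n, n1, fun _ hd => n2 0 ?_, fun _ hd => n2 1 ?_⟩
        · show (l : ℤ) ∣ (a : ℤ) + 1 * eval n X
          rw [eval_X, one_mul, add_comm]
          exact hd
        · show (l : ℤ) ∣ (k : ℤ) + 1 * eval n (X ^ 2)
          rw [eval_pow, eval_X, one_mul, add_comm]
          exact hd

end Pool.Agent.Results.MP_0b748d_nt.SquaresOfTupleMembers
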